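import Pool.Agent.Run7.h371.TB.Iface

/-! Piece LimBound of project TB (helper371, MP_64ccd3_an). -/

set_option autoImplicit false

namespace Run7.h721

open Complex MeasureTheory Filter Topology Set Metric
open Run7.h371.TB

theorem lb_shift (a : ℕ → ℂ) (n J : ℕ) (α : ℂ) :
    α ^ n * ∑ j ∈ Finset.range J, a (n + j) * α ^ j = S a (n + J) α - S a n α := by
  rw [S, S, Finset.sum_range_add, add_sub_cancel_left, Finset.mul_sum]
  refine Finset.sum_congr rfl fun j _ => ?_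
  rw [pow_add]
  ring

theorem lb_back (a : ℕ → ℂ) (n J : ℕ) (hJ : J ≤ n) (α : ℂ) (hα : α ≠ 0) :
    ∑ j ∈ Finset.range J, a (n - 1 - j) * α⁻¹ ^ j = α * (α ^ n)⁻¹ * (S a n α - S a (n - J) α) := by
  obtain ⟨m, rfl⟩ : ∃ m, n = m + J := ⟨n - J, by omega⟩
  rw [Nat.add_sub_cancel, S, S, Finset.sum_range_add, add_sub_cancel_left,
    ← Finset.sum_range_reflect, Finset.mul_sum]
  refine Finset.sum_congr rfl fun j hj => ?_
  have hj' := Finset.mem_range.1 hj
  have e : m + J - 1 - (J - 1 - j) = m + j := by omega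
  rw [e]
  have e2 : α ^ (m + J) = α * (α ^ (m + j) * α ^ (J - 1 - j)) := by
    rw [← pow_add, ← pow_succ']
    congr 1
    omega
  rw [e2, inv_pow]
  have h1 : α ^ (m + j) ≠ 0 := pow_ne_zero _ hα
  have h2 : α ^ (J - 1 - j) ≠ 0 := pow_ne_zero _ hα
  field_simp

theorem t_LimBound : LimBound := by
  intro hAb a E M hD φ b hL
  obtain ⟨ξ, hξ⟩ := hD.ne
  have hM : 0 ≤ M := le_trans (norm_nonneg _) (hD.bd ξ hξ 0)
  have hpow : ∀ α ∈ E, ∀ n : ℕ, ‖α ^ n‖ = 1 := fun α hα n => by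
    rw [norm_pow, hD.circ α hα, one_pow]
  have hdiff : ∀ α ∈ E, ∀ m n : ℕ, ‖S a m α - S a n α‖ ≤ 2 * M := fun α hα m n => by
    have h1 := norm_sub_le (S a m α) (S a n α)
    have h2 := hD.bd α hα m
    have h3 := hD.bd α hα n
    linarith
  have hne : ∀ α ∈ E, α ≠ 0 := fun α hα h0 => by
    have := hD.circ α hα
    rw [h0, norm_zero] at this
    exact zero_ne_one this
  have hphi : Tendsto φ atTop atTop := hL.1.tendsto_atTop
  have hlim : ∀ j : ℤ, Tendsto (fun k => a ((φ k : ℤ) + j).toNat) atTop (𝓝 (b j)) := hL.2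
  refine ⟨?_, ?_, ?_⟩
  · intro j
    refine le_of_tendsto (hlim j).norm (Eventually.of_forall fun k => ?_)
    have h1 := lb_shift a ((φ k : ℤ) + j).toNat 1 ξ
    rw [Finset.sum_range_one, add_zero, pow_zero, mul_one] at h1
    have h2 := hdiff ξ hξ (((φ k : ℤ) + j).toNat + 1) ((φ k : ℤ) + j).toNat
    rw [← h1, norm_mul, hpow ξ hξ, one_mul] at h2
    exact h2
  · intro α hα z hz
    refine hAb (fun j : ℕ => b (j : ℤ)) α (2 * M) (hD.circ α hα) (fun J => ?_) z hz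
    have h1 : Tendsto (fun k => ∑ j ∈ Finset.range J, a ((φ k : ℤ) + (j : ℤ)).toNat * α ^ j) atTop
        (𝓝 (S (fun j : ℕ => b (j : ℤ)) J α)) :=
      tendsto_finsetSum _ fun j _ => (hlim j).mul_const _
    refine le_of_tendsto h1.norm (Eventually.of_forall fun k => ?_)
    have h2 := lb_shift a (φ k) J α
    have h3 := hdiff α hα (φ k + J) (φ k)
    rw [← h2, norm_mul, hpow α hα, one_mul] at h3
    have h4 : ∀ j : ℕ, ((φ k : ℤ) + (j : ℤ)).toNat = φ k + j := fun j => by omega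
    simp only [h4]
    exact h3
  · intro α hα z hz
    have hz0 : 0 < ‖z‖ := by linarith
    have hzi : ‖z⁻¹‖ < 1 := by
      rw [norm_inv]
      exact inv_lt_one_of_one_lt₀ hz
    have hai : ‖α⁻¹‖ = 1 := by rw [norm_inv, hD.circ α hα, inv_one]
    have key := hAb (fun j : ℕ => b (-(j : ℤ) - 1)) α⁻¹ (2 * M) hai (fun J => ?_) z⁻¹ hzi
    · have e1 : R1 b z = z⁻¹ * P (fun j : ℕ => b (-(j : ℤ) - 1)) z⁻¹ := by
        rw [R1, P, ← tsum_mul_left]
        refine tsum_congr fun j => ?_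
        rw [pow_succ]
        ring
      have hzne : z ≠ 0 := norm_pos_iff.1 hz0
      have e2 : ‖z⁻¹ - α⁻¹‖ = ‖z - α‖ / ‖z‖ := by
        rw [inv_sub_inv hzne (hne α hα), norm_div, norm_mul, hD.circ α hα, mul_one, norm_sub_rev]
      rw [e1, norm_mul, norm_inv]
      rw [e2, norm_inv] at key
      have h1 : 0 < ‖z‖ - 1 := by linarith
      have e3 : 2 * M * (‖z - α‖ / ‖z‖) / (1 - ‖z‖⁻¹) = 2 * M * ‖z - α‖ / (‖z‖ - 1) := by
        field_simp
      rw [e3] at key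
      have h2 : 0 ≤ 2 * M * ‖z - α‖ / (‖z‖ - 1) := by positivity
      have h3 : ‖z‖⁻¹ ≤ 1 := (inv_lt_one_of_one_lt₀ hz).le
      calc ‖z‖⁻¹ * ‖P (fun j : ℕ => b (-(j : ℤ) - 1)) z⁻¹‖ ≤
          ‖z‖⁻¹ * (2 * M * ‖z - α‖ / (‖z‖ - 1)) :=
            mul_le_mul_of_nonneg_left key (inv_nonneg.2 hz0.le)
        _ ≤ 1 * (2 * M * ‖z - α‖ / (‖z‖ - 1)) := mul_le_mul_of_nonneg_right h3 h2
        _ = _ := one_mul _
    · have h1 : Tendsto (fun k => ∑ j ∈ Finset.range J,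
          a ((φ k : ℤ) + (-(j : ℤ) - 1)).toNat * α⁻¹ ^ j) atTop
          (𝓝 (S (fun j : ℕ => b (-(j : ℤ) - 1)) J α⁻¹)) :=
        tendsto_finsetSum _ fun j _ => (hlim _).mul_const _
      refine le_of_tendsto h1.norm ?_
      filter_upwards [hphi.eventually_ge_atTop J] with k hk
      have h2 := lb_back a (φ k) J hk α (hne α hα)
      have h3 := hdiff α hα (φ k) (φ k - J)
      have h4 : ∀ j : ℕ, ((φ k : ℤ) + (-(j : ℤ) - 1)).toNat = φ k - 1 - j := fun j => by omega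
      simp only [h4]
      rw [h2, norm_mul, norm_mul, norm_inv, hpow α hα, hD.circ α hα, inv_one, one_mul, one_mul]
      exact h3

end Run7.h721
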